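import Pool.Agent.Y494.FT.KumC

/-!
# Kummer extensions of Dedekind domains: the theorem
-/

set_option autoImplicit false
set_option linter.all false

open Polynomial IsDedekindDomain WithZero

namespace Pool.Agent.Y494.FT

open Pool.Agent.Y160.FT

/-- Hilbert 90 for a cyclic group of automorphisms -/
theorem h90 {L : Type} [Field L] (σ : L ≃+* L) {r : ℕ} (hr : 0 < r) (hσ : ∀ z : L, (σ ^ r) z = z)
    (hinj : ∀ i < r, ∀ j < r, (∀ z : L, (σ ^ i) z = (σ ^ j) z) → i = j) (w : L)
    (hw : ∏ i ∈ Finset.range r, (σ ^ i) w = 1) : ∃ y : L, y ≠ 0 ∧ σ y = w * y := by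
  have hw0 : w ≠ 0 := by
    rintro rfl
    rw [Finset.prod_eq_zero (Finset.mem_range.2 hr) (by rw [map_zero])] at hw
    exact zero_ne_one hw
  let W : ℕ → L := fun i => ∏ j ∈ Finset.range i, (σ ^ j) w⁻¹
  have hss : ∀ (i : ℕ) (z : L), σ ((σ ^ i) z) = (σ ^ (i + 1)) z := by
    intro i z
    rw [pow_succ']
    rfl
  have hW : ∀ i, w⁻¹ * σ (W i) = W (i + 1) := by
    intro i
    simp only [W]
    rw [Finset.prod_range_succ', map_prod, mul_comm]
    congr 1
    exact Finset.prod_congr rfl fun j _ => hss j _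
  have hWr : W r = 1 := by
    have h1 : W r * ∏ i ∈ Finset.range r, (σ ^ i) w = 1 := by
      simp only [W]
      rw [← Finset.prod_mul_distrib]
      refine Finset.prod_eq_one fun i _ => ?_
      rw [← map_mul, inv_mul_cancel₀ hw0, map_one]
    rwa [hw, mul_one] at h1
  have hW0 : W 0 = 1 := rfl
  -- the element
  obtain ⟨c, hc⟩ : ∃ c : L, ∑ i ∈ Finset.range r, W i * (σ ^ i) c ≠ 0 := by
    by_contra hcon
    push Not at hcon
    have h1 := linearIndependent_monoidHom L L
    let f : Fin r → (L →* L) := fun i => ((σ ^ (i : ℕ) : L ≃+* L) : L →* L)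
    have hf : Function.Injective f := by
      intro i j hij
      refine Fin.ext (hinj i i.2 j j.2 fun z => ?_)
      exact congrArg (fun g : L →* L => g z) hij
    have h2 := h1.comp f hf
    rw [Fintype.linearIndependent_iff] at h2
    have h3 := h2 (fun i => W i) (by
      funext c
      rw [Finset.sum_apply]
      have h4 := hcon c
      rw [Finset.sum_range] at h4
      exact h4) ⟨0, hr⟩
    exact one_ne_zero (hW0.symm.trans h3)
  refine ⟨_, hc, ?_⟩
  set y := ∑ i ∈ Finset.range r, W i * (σ ^ i) c with hy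
  have h1 : w⁻¹ * σ y = y := by
    have h2 : w⁻¹ * σ y = ∑ i ∈ Finset.range r, W (i + 1) * (σ ^ (i + 1)) c := by
      rw [hy, map_sum, Finset.mul_sum]
      refine Finset.sum_congr rfl fun i _ => ?_
      rw [map_mul, ← mul_assoc, hW, hss]
    have h3 := Finset.sum_range_succ (fun i => W i * (σ ^ i) c) r
    have h4 := Finset.sum_range_succ' (fun i => W i * (σ ^ i) c) r
    rw [h2]
    rw [h3, hWr, hW0, hσ] at h4
    have h5 : ((σ ^ 0 : L ≃+* L)) c = c := rfl
    rw [h5] at h4
    exact (add_right_cancel h4).symm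
  calc σ y = w * (w⁻¹ * σ y) := by rw [← mul_assoc, mul_inv_cancel₀ hw0, one_mul]
    _ = w * y := by rw [h1]

theorem stKum : StKum := by
  intro r k A _ _ _ _ ζ π hr hζ hπ hex
  have hD := kDed hr hζ hπ hex
  refine ⟨hD, ?_⟩
  intro L _ _ _ _ hk
  have hr0 : r ≠ 0 := by omega
  have hrk : (r : k) ≠ 0 := r_ne (by omega) hζ
  have hfin : Module.Finite A (KR r π) := (kmonic (π := π) hr0).finite_adjoinRoot
  have hint : Algebra.IsIntegral A (KR r π) := Algebra.IsIntegral.of_finite A (KR r π)
  have htf : Module.IsTorsionFree A (KR r π) := tf hr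
  set T := tw r π (algebraMap k A ζ) (zr hζ) with hT
  -- the equivalence
  have hTb : Function.Bijective T := by
    constructor
    · have h := tw_inj (π := π) (zr (A := A) hζ) (by omega) 1
      rw [pow_one] at h
      exact h
    · intro z
      refine ⟨(T ^ (r - 1)) z, ?_⟩
      have h1 := tw_pow_cancel (π := π) (zr (A := A) hζ) (i := 1) (j := r - 1) (by omega) z
      rw [pow_one] at h1
      exact h1
  let E : KR r π ≃+* KR r π := RingEquiv.ofBijective T hTb
  have hE : ∀ z, E z = T z := fun z => rfl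
  let σ : L ≃+* L := IsFractionRing.ringEquivOfRingEquiv (K := L) (L := L) E
  set ψ : KR r π →+* L := algebraMap (KR r π) L with hψ
  have hψi : Function.Injective ψ := IsFractionRing.injective (KR r π) L
  have hσ : ∀ z, σ (ψ z) = ψ (T z) := fun z =>
    IsFractionRing.ringEquivOfRingEquiv_algebraMap E z
  have hσi : ∀ (i : ℕ) (z : KR r π), (σ ^ i) (ψ z) = ψ ((T ^ i) z) := by
    intro i
    induction i with
    | zero => intro z; rfl
    | succ i ih =>
      intro z
      rw [pow_succ', pow_succ']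
      show σ ((σ ^ i) (ψ z)) = ψ (T ((T ^ i) z))
      rw [ih, hσ]
  have hdiv : ∀ z : L, ∃ a b : KR r π, b ≠ 0 ∧ z = ψ a / ψ b := by
    intro z
    obtain ⟨a, b, hb, hab⟩ := IsFractionRing.div_surjective (A := KR r π) z
    exact ⟨a, b, nonZeroDivisors.ne_zero hb, hab.symm⟩
  have hsr : ∀ z : L, (σ ^ r) z = z := by
    intro z
    obtain ⟨a, b, hb, rfl⟩ := hdiv z
    rw [map_div₀, hσi, hσi, tw_pow_r]
    rfl
  -- the valuations
  have hperm : ∀ P P' : HeightOneSpectrum (KR r π), P'.asIdeal = P.asIdeal.comap T →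
      ∀ z : L, P.valuation L (σ z) = P'.valuation L z := by
    intro P P' hPP z
    obtain ⟨a, b, hb, rfl⟩ := hdiv z
    rw [map_div₀, map_div₀, map_div₀, hσ, hσ, HeightOneSpectrum.valuation_of_algebraMap,
      HeightOneSpectrum.valuation_of_algebraMap, HeightOneSpectrum.valuation_of_algebraMap,
      HeightOneSpectrum.valuation_of_algebraMap]
    have h1 := val_equiv E P P' hPP
    rw [← h1 a, ← h1 b]
    rfl
  have hu0 : ku r π ≠ 0 := by
    intro h
    have h1 := ku_pow (r := r) (π := π)
    rw [h, zero_pow hr0] at h1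
    exact pi_ne hex (ko_inj (π := π) hr0 (h1.symm.trans (map_zero _).symm))
  refine ⟨σ, ?_⟩
  refine
    { pw := ku_pow
      inj := ko_inj (π := π) hr0
      sk := hk
      su := ?_
      sa := ?_
      sr := hsr
      perm := ?_
      fix := ?_
      h90 := ?_
      unram := ?_
      ram := ?_ }
  · show σ (ψ (ku r π)) = algebraMap k L ζ * ψ (ku r π)
    rw [hσ, tw_ku, map_mul, hk]
  · intro a
    show σ (ψ (ko r π a)) = ψ (ko r π a)
    rw [hσ, tw_ko]
  · intro P
    have h1 : P.asIdeal.comap T ≠ ⊥ := by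
      intro h
      obtain ⟨a, ha, ha0⟩ := Submodule.exists_mem_ne_zero_of_ne_bot P.ne_bot
      obtain ⟨b, rfl⟩ := hTb.2 a
      have h2 : b ∈ P.asIdeal.comap T := ha
      rw [h] at h2
      apply ha0
      rw [Ideal.mem_bot.1 h2, map_zero]
    exact ⟨⟨P.asIdeal.comap T, P.isPrime.comap T, h1⟩, hperm P _ rfl⟩
  · intro z hz
    obtain ⟨a, b, hb, rfl⟩ := hdiv z
    obtain ⟨q, hq, c, hc⟩ := (hint.isIntegral b).isAlgebraic.exists_nonzero_dvd
      (mem_nonZeroDivisors_of_ne_zero hb)
    have hc' : ko r π q = b * c := hc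
    have hb1 : ψ b ≠ 0 := by
      intro h
      exact hb (hψi (by rw [h, map_zero]))
    have h1 : ψ a / ψ b * ψ (ko r π q) = ψ (a * c) := by
      rw [hc', map_mul, map_mul, ← mul_assoc, div_mul_cancel₀ _ hb1]
    have h2 : T (a * c) = a * c := by
      apply hψi
      rw [← hσ, ← h1, map_mul, hz, hσ, tw_ko]
    have h3 : ∀ j : ℕ, (T ^ j) (a * c) = a * c := by
      intro j
      induction j with
      | zero => rfl
      | succ j ih =>
        rw [pow_succ']
        show T ((T ^ j) (a * c)) = _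
        rw [ih, h2]
    obtain ⟨d, hd⟩ := expand (π := π) hr0 (a * c)
    have h4 := average (π := π) hζ d (i := 0) (by omega)
    rw [← hd] at h4
    have h5 : ∑ j ∈ Finset.range r, ko r π (algebraMap k A ((ζ⁻¹) ^ (0 * j))) *
        (T ^ j) (a * c) = ko r π (algebraMap k A (r : k)) * (a * c) := by
      have h6 : ∀ j ∈ Finset.range r, ko r π (algebraMap k A ((ζ⁻¹) ^ (0 * j))) *
          (T ^ j) (a * c) = a * c := by
        intro j _
        rw [zero_mul, pow_zero, map_one, map_one, one_mul, h3]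
      rw [Finset.sum_congr rfl h6, Finset.sum_const, Finset.card_range, nsmul_eq_mul, map_natCast,
        map_natCast]
    rw [h5, pow_zero, mul_one] at h4
    have h7 : IsUnit (ko r π (algebraMap k A (r : k))) :=
      ((IsUnit.mk0 _ hrk).map (algebraMap k A)).map (ko r π)
    have h8 := h7.mul_left_cancel h4
    refine ⟨d 0, q, hq, ?_⟩
    show ψ a / ψ b * ψ (ko r π q) = ψ (ko r π (d 0))
    rw [h1, h8]
  · intro w hw
    refine h90 σ (by omega) hsr ?_ w hw
    intro i hi j hj hij
    have h1 := hij (ψ (ku r π))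
    rw [hσi, hσi, tw_pow_ku, tw_pow_ku] at h1
    have h2 := mul_right_cancel₀ hu0 (hψi h1)
    have h3 := ko_inj (π := π) hr0 h2
    rw [← map_pow, ← map_pow] at h3
    exact hζ.pow_inj hi hj ((algebraMap k A).injective h3)
  · intro v hv
    obtain ⟨P, hP⟩ := exists_over (π := π) hr v
    refine ⟨P, fun a => ?_⟩
    have hlo : P.asIdeal.LiesOver v.asIdeal := ⟨hP⟩
    have h1 : v.asIdeal.map (algebraMap A (KR r π)) ≤ P.asIdeal := by
      rw [Ideal.map_le_iff_le_comap]
      exact hP.le
    have he : v.asIdeal.ramificationIdx' P.asIdeal = 1 := by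
      refine Ideal.ramificationIdx'_spec ?_ (unr hr hζ v hv P hP)
      rw [pow_one]
      exact h1
    have h2 := HeightOneSpectrum.intValuation_liesOver v P a
    rw [he, pow_one] at h2
    rw [HeightOneSpectrum.valuation_of_algebraMap]
    exact h2.symm
  · intro v hv
    have hv1 := (hπ v).resolve_left hv
    obtain ⟨P, h1, h2, h3, h4⟩ := ramd hr hζ v hv1
    refine ⟨P, ?_, ?_, ?_, ?_⟩
    · intro a
      rw [HeightOneSpectrum.valuation_of_algebraMap]
      exact h1 a
    · rw [HeightOneSpectrum.valuation_of_algebraMap]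
      exact h2
    · exact hperm P P h3
    · intro z hz
      obtain ⟨x, hx⟩ := HeightOneSpectrum.exists_valuation_sub_lt_of_integer P hz 1
      obtain ⟨a, ha⟩ := h4 x
      refine ⟨a, ?_⟩
      have h5 : P.valuation L (ψ (x - ko r π a)) < 1 := by
        rw [HeightOneSpectrum.valuation_lt_one_iff_mem]
        exact ha
      have h6 : z - ψ (ko r π a) = (ψ (x - ko r π a)) - (ψ x - z) := by
        rw [map_sub]
        ring
      show P.valuation L (z - ψ (ko r π a)) < 1
      rw [h6]
      refine (Valuation.map_sub _ _ _).trans_lt (max_lt h5 ?_)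
      simpa using hx

end Pool.Agent.Y494.FT
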