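import Pool.Agent.Y160.FT.Stmts

/-!
# Kummer extensions of Dedekind domains: the ring is a Dedekind domain
-/

set_option autoImplicit false
set_option linter.all false

open Polynomial IsDedekindDomain WithZero

namespace Pool.Agent.Y494.FT

/-- the ring -/
abbrev KR (r : ℕ) {A : Type} [CommRing A] (π : A) : Type := AdjoinRoot (X ^ r - C π : A[X])

section basics

variable {r : ℕ} {A : Type} [CommRing A] {π : A}

/-- the root -/
noncomputable abbrev ku (r : ℕ) {A : Type} [CommRing A] (π : A) : KR r π :=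
  AdjoinRoot.root (X ^ r - C π : A[X])

/-- the constants -/
noncomputable abbrev ko (r : ℕ) {A : Type} [CommRing A] (π : A) : A →+* KR r π :=
  AdjoinRoot.of (X ^ r - C π : A[X])

theorem ku_pow : ku r π ^ r = ko r π π := by
  have h := AdjoinRoot.eval₂_root (X ^ r - C π : A[X])
  rw [eval₂_sub, eval₂_X_pow, eval₂_C, sub_eq_zero] at h
  exact h

theorem kmonic (hr : r ≠ 0) : (X ^ r - C π : A[X]).Monic := monic_X_pow_sub_C π hr

theorem mk_sum (c : ℕ → A) : AdjoinRoot.mk (X ^ r - C π : A[X])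
    (∑ i ∈ Finset.range r, C (c i) * X ^ i) = ∑ i ∈ Finset.range r, ko r π (c i) * ku r π ^ i := by
  rw [map_sum]
  refine Finset.sum_congr rfl fun i _ => ?_
  rw [map_mul, map_pow]
  rfl

theorem expand [Nontrivial A] (hr : r ≠ 0) (z : KR r π) : ∃ c : ℕ → A,
    z = ∑ i ∈ Finset.range r, ko r π (c i) * ku r π ^ i := by
  obtain ⟨p, rfl⟩ := AdjoinRoot.mk_surjective z
  have hm := kmonic (π := π) hr
  have h1 : AdjoinRoot.mk (X ^ r - C π : A[X]) (p %ₘ (X ^ r - C π)) =
      AdjoinRoot.mk (X ^ r - C π : A[X]) p := by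
    conv_rhs => rw [← modByMonic_add_div p (X ^ r - C π)]
    rw [map_add, map_mul, AdjoinRoot.mk_self, zero_mul, add_zero]
  refine ⟨fun i => (p %ₘ (X ^ r - C π)).coeff i, ?_⟩
  rw [← mk_sum, ← h1]
  congr 1
  have hd : (p %ₘ (X ^ r - C π)).natDegree < r := by
    have h2 := natDegree_modByMonic_lt p hm (by
      intro h
      have := congrArg natDegree h
      rw [natDegree_X_pow_sub_C, natDegree_one] at this
      exact hr this)
    rwa [natDegree_X_pow_sub_C] at h2
  conv_lhs => rw [as_sum_range' _ _ hd]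
  refine Finset.sum_congr rfl fun i _ => ?_
  rw [C_mul_X_pow_eq_monomial]

theorem lin_ind [Nontrivial A] (hr : r ≠ 0) (c : ℕ → A)
    (h : ∑ i ∈ Finset.range r, ko r π (c i) * ku r π ^ i = 0) : ∀ i < r, c i = 0 := by
  rw [← mk_sum, AdjoinRoot.mk_eq_zero] at h
  have hp : (∑ i ∈ Finset.range r, C (c i) * X ^ i : A[X]) = 0 := by
    by_contra h0
    refine (kmonic (π := π) hr).not_dvd_of_degree_lt h0 ?_ h
    rw [degree_X_pow_sub_C (Nat.pos_of_ne_zero hr)]
    refine (degree_sum_le _ _).trans_lt ?_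
    refine (Finset.sup_lt_iff (WithBot.bot_lt_coe r)).2 ?_
    intro i hi
    exact (degree_C_mul_X_pow_le i (c i)).trans_lt (WithBot.coe_lt_coe.2 (Finset.mem_range.1 hi))
  intro i hi
  have h1 := congrArg (fun p : A[X] => p.coeff i) hp
  simp only [finset_sum_coeff, coeff_C_mul_X_pow, coeff_zero] at h1
  rw [Finset.sum_eq_single i] at h1
  · rw [if_pos rfl] at h1
    exact h1
  · intro j _ hj
    rw [if_neg (Ne.symm hj)]
  · intro h2
    exact absurd (Finset.mem_range.2 hi) h2

theorem lin_ind' [Nontrivial A] (hr : r ≠ 0) (c d : ℕ → A)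
    (h : ∑ i ∈ Finset.range r, ko r π (c i) * ku r π ^ i =
      ∑ i ∈ Finset.range r, ko r π (d i) * ku r π ^ i) : ∀ i < r, c i = d i := by
  intro i hi
  have h1 := lin_ind (π := π) hr (fun i => c i - d i) (by
    rw [← sub_eq_zero, ← Finset.sum_sub_distrib] at h
    rw [← h]
    refine Finset.sum_congr rfl fun j _ => ?_
    rw [map_sub]
    ring) i hi
  exact sub_eq_zero.1 h1

theorem ko_inj [Nontrivial A] (hr : r ≠ 0) : Function.Injective (ko r π) := by
  rw [injective_iff_map_eq_zero]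
  intro a ha
  refine lin_ind (π := π) hr (fun i => if i = 0 then a else 0) ?_ 0 (Nat.pos_of_ne_zero hr)
  refine Finset.sum_eq_zero fun i _ => ?_
  by_cases h : i = 0
  · simp only [if_pos h]
    rw [ha, zero_mul]
  · simp only [if_neg h]
    rw [map_zero, zero_mul]

/-- the twist -/
noncomputable def tw (r : ℕ) {A : Type} [CommRing A] (π : A) (ζ : A) (h : ζ ^ r = 1) :
    KR r π →+* KR r π :=
  AdjoinRoot.lift (ko r π) (ko r π ζ * ku r π) (by
    rw [eval₂_sub, eval₂_X_pow, eval₂_C, mul_pow, ku_pow, ← map_pow, h, map_one, one_mul]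
    exact sub_self _)

theorem tw_ko {ζ : A} (h : ζ ^ r = 1) (a : A) : tw r π ζ h (ko r π a) = ko r π a :=
  AdjoinRoot.lift_of _

theorem tw_ku {ζ : A} (h : ζ ^ r = 1) : tw r π ζ h (ku r π) = ko r π ζ * ku r π :=
  AdjoinRoot.lift_root _

theorem tw_pow_ko {ζ : A} (h : ζ ^ r = 1) (j : ℕ) (a : A) :
    ((tw r π ζ h) ^ j) (ko r π a) = ko r π a := by
  induction j with
  | zero => rfl
  | succ j ih =>
    rw [pow_succ']
    show (tw r π ζ h) (((tw r π ζ h) ^ j) (ko r π a)) = _
    rw [ih, tw_ko]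

theorem tw_pow_ku {ζ : A} (h : ζ ^ r = 1) (j : ℕ) :
    ((tw r π ζ h) ^ j) (ku r π) = ko r π (ζ ^ j) * ku r π := by
  induction j with
  | zero =>
    rw [pow_zero, pow_zero, map_one, one_mul]
    rfl
  | succ j ih =>
    rw [pow_succ']
    show (tw r π ζ h) (((tw r π ζ h) ^ j) (ku r π)) = _
    rw [ih, map_mul, tw_ko, tw_ku, ← mul_assoc, ← map_mul, pow_succ]

theorem kr_ext {S : Type} [CommRing S] {φ ψ : KR r π →+* S} (h1 : ∀ a, φ (ko r π a) = ψ (ko r π a))
    (h2 : φ (ku r π) = ψ (ku r π)) : φ = ψ := by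
  apply RingHom.ext
  intro z
  obtain ⟨p, rfl⟩ := AdjoinRoot.mk_surjective z
  induction p using Polynomial.induction_on with
  | C a => exact h1 a
  | add p q hp hq => rw [map_add, map_add, map_add, hp, hq]
  | monomial n a _ =>
    rw [map_mul, map_mul, map_mul, map_pow, map_pow, map_pow]
    show φ (ko r π a) * φ (ku r π) ^ (n + 1) = ψ (ko r π a) * ψ (ku r π) ^ (n + 1)
    rw [h1, h2]

theorem tw_pow_r {ζ : A} (h : ζ ^ r = 1) : (tw r π ζ h) ^ r = 1 := by
  apply kr_ext
  · intro a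
    rw [tw_pow_ko]
    rfl
  · rw [tw_pow_ku, h, map_one, one_mul]
    rfl

theorem tw_pow_add {ζ : A} (h : ζ ^ r = 1) (i j : ℕ) (z : KR r π) :
    ((tw r π ζ h) ^ i) (((tw r π ζ h) ^ j) z) = ((tw r π ζ h) ^ (i + j)) z := by
  rw [pow_add]
  rfl

theorem tw_pow_cancel {ζ : A} (h : ζ ^ r = 1) {i j : ℕ} (hij : i + j = r) (z : KR r π) :
    ((tw r π ζ h) ^ i) (((tw r π ζ h) ^ j) z) = z := by
  rw [tw_pow_add, hij, tw_pow_r]
  rfl

theorem tw_inj {ζ : A} (h : ζ ^ r = 1) (hr : 0 < r) (j : ℕ) :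
    Function.Injective ((tw r π ζ h) ^ j) := by
  induction j with
  | zero => exact Function.injective_id
  | succ j ih =>
    rw [pow_succ']
    refine Function.Injective.comp (g := (tw r π ζ h)) ?_ ih
    intro x y hxy
    have h1 := tw_pow_cancel (π := π) h (i := r - 1) (j := 1) (by omega) x
    have h2 := tw_pow_cancel (π := π) h (i := r - 1) (j := 1) (by omega) y
    rw [pow_one] at h1 h2
    rw [← h1, ← h2, hxy]

end basics

/-- orthogonality -/
theorem orth {k : Type} [Field k] {ζ : k} {r : ℕ} (hζ : IsPrimitiveRoot ζ r) {i m : ℕ} (hi : i < r)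
    (hm : m < r) : ∑ j ∈ Finset.range r, (ζ⁻¹) ^ (i * j) * (ζ ^ j) ^ m =
      if m = i then (r : k) else 0 := by
  have hr : r ≠ 0 := by omega
  have hζ0 : ζ ≠ 0 := hζ.ne_zero hr
  have e : ∀ j ∈ Finset.range r, (ζ⁻¹) ^ (i * j) * (ζ ^ j) ^ m = (ζ ^ m * (ζ⁻¹) ^ i) ^ j := by
    intro j _
    rw [mul_pow, ← pow_mul, ← pow_mul, ← pow_mul, mul_comm j m, mul_comm]
  rw [Finset.sum_congr rfl e]
  by_cases h : m = i
  · subst h
    rw [if_pos rfl, ← mul_pow, mul_inv_cancel₀ hζ0, one_pow]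
    simp
  · rw [if_neg h]
    have h4 : ζ ^ m * (ζ⁻¹) ^ i ≠ 1 := by
      intro h1
      apply h
      apply hζ.pow_inj hm hi
      rw [inv_pow] at h1
      have h5 := congrArg (fun z => z * ζ ^ i) h1
      simpa [mul_assoc, inv_mul_cancel₀ (pow_ne_zero i hζ0)] using h5
    have h5 : (ζ ^ m * (ζ⁻¹) ^ i) ^ r = 1 := by
      rw [mul_pow, ← pow_mul, ← pow_mul, mul_comm m, mul_comm i, pow_mul, pow_mul, hζ.pow_eq_one,
        inv_pow, hζ.pow_eq_one, one_pow, inv_one, one_pow, mul_one]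
    have h7 := mul_neg_geom_sum (ζ ^ m * (ζ⁻¹) ^ i) r
    rw [h5, sub_self] at h7
    rcases mul_eq_zero.1 h7 with h8 | h8
    · exact absurd (sub_eq_zero.1 h8).symm h4
    · exact h8

section alg

variable {r : ℕ} {k A : Type} [Field k] [CommRing A] [Algebra k A] {π : A} {ζ : k}

theorem zr (hζ : IsPrimitiveRoot ζ r) : (algebraMap k A ζ) ^ r = 1 := by
  rw [← map_pow, hζ.pow_eq_one, map_one]

/-- the components as averages of the twists -/
theorem average (hζ : IsPrimitiveRoot ζ r) (c : ℕ → A) {i : ℕ} (hi : i < r) :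
    ∑ j ∈ Finset.range r, ko r π (algebraMap k A ((ζ⁻¹) ^ (i * j))) *
      ((tw r π (algebraMap k A ζ) (zr hζ)) ^ j)
        (∑ m ∈ Finset.range r, ko r π (c m) * ku r π ^ m) =
      ko r π (algebraMap k A (r : k)) * (ko r π (c i) * ku r π ^ i) := by
  have h1 : ∀ j ∈ Finset.range r, ko r π (algebraMap k A ((ζ⁻¹) ^ (i * j))) *
      ((tw r π (algebraMap k A ζ) (zr hζ)) ^ j)
        (∑ m ∈ Finset.range r, ko r π (c m) * ku r π ^ m) =
      ∑ m ∈ Finset.range r, ko r π (algebraMap k A ((ζ⁻¹) ^ (i * j) * (ζ ^ j) ^ m)) *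
        (ko r π (c m) * ku r π ^ m) := by
    intro j _
    rw [map_sum, Finset.mul_sum]
    refine Finset.sum_congr rfl fun m _ => ?_
    have e1 : ((tw r π (algebraMap k A ζ) (zr hζ)) ^ j) (ku r π ^ m) =
        ko r π (algebraMap k A ((ζ ^ j) ^ m)) * ku r π ^ m := by
      rw [map_pow ((tw r π (algebraMap k A ζ) (zr hζ)) ^ j), tw_pow_ku, mul_pow, ← map_pow (ko r π),
        ← map_pow (algebraMap k A), ← map_pow (algebraMap k A)]
    rw [map_mul ((tw r π (algebraMap k A ζ) (zr hζ)) ^ j), tw_pow_ko, e1,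
      map_mul (algebraMap k A) _ ((ζ ^ j) ^ m), map_mul (ko r π)]
    ring
  rw [Finset.sum_congr rfl h1, Finset.sum_comm]
  have h2 : ∀ m ∈ Finset.range r, ∑ j ∈ Finset.range r,
      ko r π (algebraMap k A ((ζ⁻¹) ^ (i * j) * (ζ ^ j) ^ m)) * (ko r π (c m) * ku r π ^ m) =
      ko r π (algebraMap k A (if m = i then (r : k) else 0)) * (ko r π (c m) * ku r π ^ m) := by
    intro m hm
    rw [← Finset.sum_mul, ← map_sum, ← map_sum, orth hζ hi (Finset.mem_range.1 hm)]
  rw [Finset.sum_congr rfl h2, Finset.sum_eq_single i]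
  · rw [if_pos rfl]
  · intro m _ hm
    rw [if_neg hm, map_zero, map_zero, zero_mul]
  · intro h
    exact absurd (Finset.mem_range.2 hi) h

theorem r_ne (hr : 0 < r) (hζ : IsPrimitiveRoot ζ r) : (r : k) ≠ 0 := by
  have : NeZero r := ⟨hr.ne'⟩
  exact (hζ.neZero').ne

end alg

/-! ### The ring is a domain -/

theorem isDom {r : ℕ} {A : Type} [CommRing A] [IsDedekindDomain A] {π : A} (hr : 1 < r)
    (v : HeightOneSpectrum A) (hv : v.intValuation π = exp (-1 : ℤ)) : IsDomain (KR r π) := by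
  have hr0 : r ≠ 0 := by omega
  have hm := kmonic (π := π) hr0
  have hmem : π ∈ v.asIdeal := by
    rw [← HeightOneSpectrum.intValuation_lt_one_iff_mem, hv, ← exp_zero, exp_lt_exp]
    norm_num
  have hnm : π ∉ v.asIdeal ^ 2 := by
    rw [← HeightOneSpectrum.intValuation_le_pow_iff_mem, hv, exp_le_exp]
    norm_num
  have hE : (X ^ r - C π : A[X]).IsEisensteinAt v.asIdeal := by
    refine ⟨?_, ?_, ?_⟩
    · rw [hm.leadingCoeff]
      exact fun h => v.isPrime.ne_top ((Ideal.eq_top_iff_one _).2 h)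
    · intro n hn
      rw [natDegree_X_pow_sub_C] at hn
      rw [coeff_sub, coeff_X_pow, if_neg hn.ne, zero_sub, coeff_C]
      split_ifs
      · exact neg_mem hmem
      · rw [neg_zero]
        exact zero_mem _
    · rw [coeff_sub, coeff_X_pow, if_neg (by omega), coeff_C_zero, zero_sub]
      intro h
      exact hnm (neg_mem_iff.1 h)
  have hI : Irreducible (X ^ r - C π : A[X]) :=
    hE.irreducible v.isPrime hm.isPrimitive (by rw [natDegree_X_pow_sub_C]; omega)
  have hIK := (hm.irreducible_iff_irreducible_map_fraction_map (K := FractionRing A)).1 hI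
  have hP : Prime (X ^ r - C π : A[X]) := by
    refine ⟨hm.ne_zero, hI.not_isUnit, ?_⟩
    intro a b hab
    have h1 := (map_dvd_map _ (IsFractionRing.injective A (FractionRing A)) hm).2 hab
    rw [Polynomial.map_mul] at h1
    rcases hIK.prime.dvd_or_dvd h1 with h2 | h2
    · exact Or.inl ((map_dvd_map _ (IsFractionRing.injective A (FractionRing A)) hm).1 h2)
    · exact Or.inr ((map_dvd_map _ (IsFractionRing.injective A (FractionRing A)) hm).1 h2)
  exact AdjoinRoot.isDomain_of_prime hP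

/-- divisibility by valuations -/
theorem dvd_of_val {A : Type} [CommRing A] [IsDedekindDomain A] {a b : A} (hb : b ≠ 0)
    (h : ∀ v : HeightOneSpectrum A, v.intValuation a ≤ v.intValuation b) : b ∣ a := by
  have h1 := HeightOneSpectrum.mem_integers_of_valuation_le_one (R := A) (FractionRing A)
    (algebraMap A (FractionRing A) a / algebraMap A (FractionRing A) b) (by
      intro v
      rw [map_div₀, HeightOneSpectrum.valuation_of_algebraMap,
        HeightOneSpectrum.valuation_of_algebraMap]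
      have hb' : 0 < v.intValuation b := zero_lt_iff.2 (HeightOneSpectrum.intValuation_ne_zero v b hb)
      rw [div_le_one₀ hb']
      exact h v)
  obtain ⟨y, hy⟩ := h1
  have hb0 : algebraMap A (FractionRing A) b ≠ 0 := by
    intro h0
    exact hb (IsFractionRing.injective A (FractionRing A) (by rw [h0, map_zero]))
  refine ⟨y, ?_⟩
  apply IsFractionRing.injective A (FractionRing A)
  rw [map_mul, hy, mul_div_cancel₀ _ hb0]

/-- the valuations are powers -/
theorem val_exp {A : Type} [CommRing A] [IsDedekindDomain A] (v : HeightOneSpectrum A) {a : A}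
    (ha : a ≠ 0) : ∃ n : ℕ, v.intValuation a = exp (-(n : ℤ)) :=
  ⟨_, v.intValuation_eq_exp_neg_multiplicity ha⟩

theorem dvd_of_pow {r i : ℕ} (hi : i < r) {A : Type} [CommRing A] [IsDedekindDomain A] {π : A}
    (hπ0 : π ≠ 0) (hπ : ∀ v : HeightOneSpectrum A, v.intValuation π = 1 ∨
      v.intValuation π = exp (-1 : ℤ)) {a b : A} (hb : b ≠ 0) (h : b ^ r ∣ a ^ r * π ^ i) :
    b ∣ a := by
  by_cases ha : a = 0
  · rw [ha]; exact dvd_zero _
  refine dvd_of_val hb fun v => ?_
  obtain ⟨m, hm⟩ := val_exp v ha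
  obtain ⟨n, hn⟩ := val_exp v hb
  obtain ⟨c, hc⟩ := h
  have hc0 : c ≠ 0 := by
    rintro rfl
    rw [mul_zero] at hc
    exact mul_ne_zero (pow_ne_zero _ ha) (pow_ne_zero _ hπ0) hc
  obtain ⟨s, hs⟩ := val_exp v hc0
  have h1 := congrArg v.intValuation hc
  rw [map_mul, map_mul, map_pow, map_pow, map_pow, hm, hn, hs] at h1
  rw [hm, hn, exp_le_exp]
  have hp : ∀ (x : ℤ) (t : ℕ), (exp x : ℤᵐ⁰) ^ t = exp (t * x) := by
    intro x t
    rw [← exp_nsmul, nsmul_eq_mul]
  rcases hπ v with h2 | h2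
  · rw [h2, one_pow, mul_one, hp, hp, ← exp_add, exp_inj] at h1
    have h3 : (n : ℤ) ≤ m := by
      by_contra hcon
      push Not at hcon
      have h4 : (m : ℤ) + 1 ≤ n := by omega
      have hr0 : (0 : ℤ) < r := by exact_mod_cast (by omega : 0 < r)
      nlinarith [Int.natCast_nonneg s]
    omega
  · rw [h2, hp, hp, hp, ← exp_add, ← exp_add, exp_inj] at h1
    have h3 : (n : ℤ) ≤ m := by
      by_contra hcon
      push Not at hcon
      have h4 : (m : ℤ) + 1 ≤ n := by omega
      have hr0 : (i : ℤ) < r := by exact_mod_cast hi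
      nlinarith [Int.natCast_nonneg s, Int.natCast_nonneg i]
    omega

end Pool.Agent.Y494.FT
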