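import Pool.Agent.Y494.FT.KumA

/-!
# Kummer extensions of Dedekind domains: the ring is integrally closed
-/

set_option autoImplicit false
set_option linter.all false

open Polynomial IsDedekindDomain WithZero

namespace Pool.Agent.Y494.FT

section

variable {r : ℕ} {k A : Type} [Field k] [CommRing A] [IsDedekindDomain A] [Algebra k A] {π : A} {ζ : k}

theorem pi_ne {A : Type} [CommRing A] [IsDedekindDomain A] {π : A}
    (hex : ∃ v : HeightOneSpectrum A, v.intValuation π = exp (-1 : ℤ)) : π ≠ 0 := by
  obtain ⟨v, hv⟩ := hex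
  rintro rfl
  rw [map_zero] at hv
  exact exp_ne_zero hv.symm

theorem isIC (hr : 1 < r) (hζ : IsPrimitiveRoot ζ r)
    (hπ : ∀ v : HeightOneSpectrum A, v.intValuation π = 1 ∨ v.intValuation π = exp (-1 : ℤ))
    (hex : ∃ v : HeightOneSpectrum A, v.intValuation π = exp (-1 : ℤ)) :
    IsIntegrallyClosed (KR r π) := by
  have hr0 : r ≠ 0 := by omega
  have hdom : IsDomain (KR r π) := by
    obtain ⟨v, hv⟩ := hex
    exact isDom hr v hv
  have hfin : Module.Finite A (KR r π) := (kmonic (π := π) hr0).finite_adjoinRoot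
  have hint : Algebra.IsIntegral A (KR r π) := Algebra.IsIntegral.of_finite A (KR r π)
  have hrk : (r : k) ≠ 0 := r_ne (by omega) hζ
  have hxi : Function.Injective (algebraMap A (KR r π)) := ko_inj (π := π) hr0
  set F := FractionRing (KR r π) with hF
  set ψ : KR r π →+* F := algebraMap (KR r π) F with hψ
  have hψi : Function.Injective ψ := IsFractionRing.injective (KR r π) F
  have hmap : algebraMap A F = ψ.comp (algebraMap A (KR r π)) :=
    IsScalarTower.algebraMap_eq A (KR r π) F
  have hmap' : ∀ p, algebraMap A F p = ψ (ko r π p) := fun p => by rw [hmap]; rfl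
  rw [isIntegrallyClosed_iff F]
  intro z hz
  have hz' : IsIntegral A z := isIntegral_trans z hz
  -- z = y / q
  obtain ⟨y, q, hq, hzr⟩ : ∃ (y : KR r π) (q : A), q ≠ 0 ∧ z * ψ (ko r π q) = ψ y := by
    obtain ⟨a, b, hb, hab⟩ := IsFractionRing.div_surjective (A := KR r π) z
    have hb0 : b ≠ 0 := nonZeroDivisors.ne_zero hb
    obtain ⟨q, hq, c, hc⟩ := (hint.isIntegral b).isAlgebraic.exists_nonzero_dvd hb
    refine ⟨a * c, q, hq, ?_⟩
    have hc' : ko r π q = b * c := hc
    rw [hc', map_mul, map_mul, ← hab]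
    have hb1 : ψ b ≠ 0 := by
      intro h
      exact hb0 (hψi (by rw [h, map_zero]))
    rw [← mul_assoc, div_mul_cancel₀ _ hb1]
  have hq1 : ψ (ko r π q) ≠ 0 := by
    intro h
    have h1 : ko r π q = ko r π 0 := by
      rw [map_zero]
      exact hψi (by rw [h, map_zero])
    exact hq (ko_inj hr0 h1)
  have hz0 : z = ψ y / ψ (ko r π q) := by rw [← hzr, mul_div_cancel_right₀ _ hq1]
  set T := tw r π (algebraMap k A ζ) (zr hζ) with hT
  -- the twists
  have htw : ∀ j : ℕ, IsIntegral A (ψ ((T ^ j) y) / ψ (ko r π q)) := by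
    intro j
    set σ : F →+* F := IsFractionRing.map (tw_inj (π := π) (zr (A := A) hζ) (by omega) j) with hσ
    have hσa : ∀ a, σ (ψ a) = ψ ((T ^ j) a) := fun a => IsLocalization.map_eq _ a
    have h1 := IsIntegral.map_of_comp_eq (RingHom.id A) σ (by
      apply RingHom.ext
      intro p
      show algebraMap A F p = σ (algebraMap A F p)
      rw [hmap', hσa, tw_pow_ko]) hz'
    rw [hz0, map_div₀, hσa, hσa, tw_pow_ko] at h1
    exact h1
  obtain ⟨c, hc⟩ := expand (π := π) hr0 y
  -- the components
  have hcomp : ∀ i, i < r → q ∣ c i := by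
    intro i hi
    have h1 : IsIntegral A (ψ (ko r π (c i) * ku r π ^ i) / ψ (ko r π q)) := by
      have h2 : ψ (ko r π (c i) * ku r π ^ i) / ψ (ko r π q) = ∑ j ∈ Finset.range r,
          algebraMap A F (algebraMap k A (r : k)⁻¹ * algebraMap k A ((ζ⁻¹) ^ (i * j))) *
            (ψ ((T ^ j) y) / ψ (ko r π q)) := by
        have h3 := congrArg (fun a => ψ (ko r π (algebraMap k A (r : k)⁻¹)) * ψ a / ψ (ko r π q))
          (average (π := π) hζ c hi)
        have h4 : ψ (ko r π (algebraMap k A (r : k)⁻¹)) * ψ (ko r π (algebraMap k A (r : k)) *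
            (ko r π (c i) * ku r π ^ i)) = ψ (ko r π (c i) * ku r π ^ i) := by
          rw [← map_mul ψ, ← mul_assoc, ← map_mul (ko r π), ← map_mul (algebraMap k A),
            inv_mul_cancel₀ hrk, map_one, map_one, one_mul]
        rw [h4, ← hc] at h3
        rw [← h3, map_sum, Finset.mul_sum, Finset.sum_div]
        refine Finset.sum_congr rfl fun j _ => ?_
        rw [hmap', map_mul (ko r π), map_mul ψ, map_mul ψ]
        ring
      rw [h2]
      exact IsIntegral.sum _ fun j _ => (isIntegral_algebraMap).mul (htw j)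
    have h2 := h1.pow r
    rw [div_pow, ← map_pow ψ, ← map_pow ψ, mul_pow, ← pow_mul, mul_comm i r, pow_mul, ku_pow,
      ← map_pow (ko r π), ← map_pow (ko r π), ← map_pow (ko r π), ← map_mul (ko r π)] at h2
    -- descend to the fraction field of `A`
    set K := FractionRing A with hK
    set κ : K →+* F := IsFractionRing.map hxi with hκ
    have hκa : ∀ p, κ (algebraMap A K p) = ψ (ko r π p) := fun p =>
      IsLocalization.map_eq _ p
    have h3 : IsIntegral A (algebraMap A K (c i ^ r * π ^ i) / algebraMap A K (q ^ r)) := by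
      obtain ⟨P, hP, hP0⟩ := h2
      refine ⟨P, hP, ?_⟩
      apply κ.injective
      rw [map_zero, hom_eval₂, map_div₀, hκa, hκa]
      have h4 : κ.comp (algebraMap A K) = algebraMap A F := by
        apply RingHom.ext
        intro p
        rw [RingHom.comp_apply, hκa, hmap']
      rw [h4]
      exact hP0
    rw [IsIntegrallyClosed.isIntegral_iff] at h3
    obtain ⟨w, hw⟩ := h3
    have hqK : algebraMap A K (q ^ r) ≠ 0 := by
      intro h
      exact pow_ne_zero r hq (IsFractionRing.injective A K (by rw [h, map_zero]))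
    have h4 : c i ^ r * π ^ i = w * q ^ r := by
      apply IsFractionRing.injective A K
      rw [map_mul _ w, hw, div_mul_cancel₀ _ hqK]
    exact dvd_of_pow hi (pi_ne hex) hπ hq ⟨w, by rw [h4, mul_comm]⟩
  choose! g hgq using hcomp
  refine ⟨∑ i ∈ Finset.range r, ko r π (g i) * ku r π ^ i, ?_⟩
  show ψ _ = z
  have hs : y = ko r π q * ∑ i ∈ Finset.range r, ko r π (g i) * ku r π ^ i := by
    rw [hc, Finset.mul_sum]
    refine Finset.sum_congr rfl fun i hi => ?_
    rw [hgq i (Finset.mem_range.1 hi), map_mul (ko r π), mul_assoc]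
  rw [hz0, hs, map_mul ψ, mul_div_cancel_left₀ _ hq1]

theorem kDed (hr : 1 < r) (hζ : IsPrimitiveRoot ζ r)
    (hπ : ∀ v : HeightOneSpectrum A, v.intValuation π = 1 ∨ v.intValuation π = exp (-1 : ℤ))
    (hex : ∃ v : HeightOneSpectrum A, v.intValuation π = exp (-1 : ℤ)) :
    IsDedekindDomain (KR r π) := by
  have hr0 : r ≠ 0 := by omega
  have hdom : IsDomain (KR r π) := by
    obtain ⟨v, hv⟩ := hex
    exact isDom hr v hv
  have hfin : Module.Finite A (KR r π) := (kmonic (π := π) hr0).finite_adjoinRoot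
  have hint : Algebra.IsIntegral A (KR r π) := Algebra.IsIntegral.of_finite A (KR r π)
  have hnoeth : IsNoetherianRing (KR r π) := IsNoetherianRing.of_finite A (KR r π)
  have hdim : Ring.DimensionLEOne (KR r π) := Ring.DimensionLEOne.of_isIntegral A (KR r π)
  have hic : IsIntegrallyClosed (KR r π) := isIC hr hζ hπ hex
  have h1 : IsDedekindRing (KR r π) := { hnoeth, hdim, hic with }
  exact { hdom, h1 with }

end

end Pool.Agent.Y494.FT
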