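import Pool.Agent.Y494.FT.KumB

/-!
# Kummer extensions of Dedekind domains: ramification
-/

set_option autoImplicit false
set_option linter.all false

open Polynomial IsDedekindDomain WithZero

namespace Pool.Agent.Y494.FT

section val

variable {R : Type} [CommRing R] [IsDedekindDomain R]

theorem val_eq' (P P' : HeightOneSpectrum R) (x y : R) (hx : x ≠ 0) (hy : y ≠ 0)
    (h : ∀ n : ℕ, x ∈ P.asIdeal ^ n ↔ y ∈ P'.asIdeal ^ n) : P.intValuation x = P'.intValuation y := by
  obtain ⟨m, hm⟩ := val_exp P hx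
  obtain ⟨n, hn⟩ := val_exp P' hy
  have h1 : P'.intValuation y ≤ exp (-(m : ℤ)) := by
    rw [HeightOneSpectrum.intValuation_le_pow_iff_mem, ← h,
      ← HeightOneSpectrum.intValuation_le_pow_iff_mem, hm]
  have h2 : P.intValuation x ≤ exp (-(n : ℤ)) := by
    rw [HeightOneSpectrum.intValuation_le_pow_iff_mem, h,
      ← HeightOneSpectrum.intValuation_le_pow_iff_mem, hn]
  exact le_antisymm (h2.trans hn.ge) (h1.trans hm.ge)

theorem val_equiv (e : R ≃+* R) (P P' : HeightOneSpectrum R)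
    (h : P'.asIdeal = P.asIdeal.comap (e : R →+* R)) (a : R) :
    P.intValuation (e a) = P'.intValuation a := by
  by_cases ha : a = 0
  · rw [ha, map_zero, map_zero, map_zero]
  refine val_eq' P P' (e a) a (fun h0 => ha (e.injective (by rw [h0, map_zero]))) ha fun n => ?_
  have h1 : P.asIdeal.comap (e : R →+* R) = P.asIdeal.map (e.symm : R →+* R) := by
    have := (Ideal.map_symm (I := P.asIdeal) e).symm
    exact this
  have h2 : (P.asIdeal ^ n).comap (e : R →+* R) = (P.asIdeal ^ n).map (e.symm : R →+* R) := by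
    have := (Ideal.map_symm (I := P.asIdeal ^ n) e).symm
    exact this
  rw [h, h1, ← Ideal.map_pow, ← h2]
  rfl

end val

section ram

variable {r : ℕ} {k A : Type} [Field k] [CommRing A] [IsDedekindDomain A] [Algebra k A] {π : A} {ζ : k}

theorem tf (hr : 1 < r) [IsDomain (KR r π)] : Module.IsTorsionFree A (KR r π) :=
  Module.isTorsionFree_iff_algebraMap_injective.2 (ko_inj (π := π) (by omega))

theorem exists_over (hr : 1 < r) [IsDedekindDomain (KR r π)] (v : HeightOneSpectrum A) :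
    ∃ P : HeightOneSpectrum (KR r π), v.asIdeal = P.asIdeal.comap (algebraMap A (KR r π)) := by
  have hr0 : r ≠ 0 := by omega
  have hfin : Module.Finite A (KR r π) := (kmonic (π := π) hr0).finite_adjoinRoot
  have hint : Algebra.IsIntegral A (KR r π) := Algebra.IsIntegral.of_finite A (KR r π)
  have htf : Module.IsTorsionFree A (KR r π) := tf hr
  have hfs : FaithfulSMul A (KR r π) :=
    (faithfulSMul_iff_algebraMap_injective A (KR r π)).2 (ko_inj (π := π) hr0)
  have hvm : v.asIdeal.IsMaximal := v.isMaximal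
  obtain ⟨P, hP, hPv⟩ := Ideal.exists_maximal_ideal_liesOver_of_isIntegral (S := KR r π) v.asIdeal
  refine ⟨⟨P, hP.isPrime, ?_⟩, hPv.over⟩
  rintro rfl
  have h1 := hPv.over
  apply v.ne_bot
  rw [h1, eq_bot_iff]
  intro a ha
  have h2 : algebraMap A (KR r π) a = 0 := ha
  have h3 := ko_inj (π := π) hr0 (h2.trans (map_zero _).symm)
  rw [h3]
  exact zero_mem _

theorem unr (hr : 1 < r) (hζ : IsPrimitiveRoot ζ r) [IsDedekindDomain (KR r π)]
    (v : HeightOneSpectrum A) (hv : v.intValuation π = 1) (P : HeightOneSpectrum (KR r π))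
    (hP : v.asIdeal = P.asIdeal.comap (algebraMap A (KR r π))) :
    ¬ v.asIdeal.map (algebraMap A (KR r π)) ≤ P.asIdeal ^ 2 := by
  classical
  intro hle
  have hr0 : r ≠ 0 := by omega
  have hrk : (r : k) ≠ 0 := r_ne (by omega) hζ
  set T := tw r π (algebraMap k A ζ) (zr hζ) with hT
  have hmem : ∀ a : A, ko r π a ∈ P.asIdeal ↔ a ∈ v.asIdeal := by
    intro a
    rw [hP]
    rfl
  have hu : ku r π ∉ P.asIdeal := by
    intro h
    have h1 : ku r π ^ r ∈ P.asIdeal := Ideal.pow_mem_of_mem _ h r (by omega)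
    rw [ku_pow, hmem, ← HeightOneSpectrum.intValuation_lt_one_iff_mem, hv] at h1
    exact lt_irrefl _ h1
  -- the other conjugates
  let Q : ℕ → Ideal (KR r π) := fun j => P.asIdeal.comap (T ^ j)
  have hQp : ∀ j, (Q j).IsPrime := fun j => P.isPrime.comap (T ^ j)
  have hQ0 : ∀ j, Q j ≠ ⊥ := by
    intro j h
    obtain ⟨a, ha, ha0⟩ := Submodule.exists_mem_ne_zero_of_ne_bot v.ne_bot
    have h1 : ko r π a ∈ Q j := by
      show (T ^ j) (ko r π a) ∈ P.asIdeal
      rw [tw_pow_ko, hmem]
      exact ha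
    rw [h] at h1
    exact ha0 (ko_inj (π := π) hr0 ((Ideal.mem_bot.1 h1).trans (map_zero _).symm))
  let S : Finset ℕ := (Finset.range r).filter fun j => Q j ≠ P.asIdeal
  have hJ : ¬ ∏ j ∈ S, Q j ≤ P.asIdeal := by
    rw [P.isPrime.prod_le]
    rintro ⟨j, hj, hjP⟩
    have h1 : (Q j).IsMaximal := (hQp j).isMaximal (hQ0 j)
    exact (Finset.mem_filter.1 hj).2 (h1.eq_of_le P.isPrime.ne_top hjP)
  obtain ⟨y, hyJ, hyP⟩ := Set.not_subset.1 hJ
  obtain ⟨x, hx⟩ := P.intValuation_exists_uniformizer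
  have hxP : x ∈ P.asIdeal := by
    rw [← HeightOneSpectrum.intValuation_lt_one_iff_mem, hx, ← exp_zero, exp_lt_exp]
    norm_num
  have hy1 : P.intValuation y = 1 := by
    have h1 : y ∈ P.asIdeal.primeCompl := hyP
    rwa [← P.intValuation_eq_one_iff_mem_primeCompl] at h1
  have hTz : ∀ j ∈ Finset.range r, (T ^ j) (x * y) ∈ P.asIdeal := by
    intro j hj
    rw [map_mul]
    by_cases h : Q j = P.asIdeal
    · refine Ideal.mul_mem_right _ _ ?_
      have h1 : x ∈ Q j := by rw [h]; exact hxP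
      exact h1
    · refine Ideal.mul_mem_left _ _ ?_
      have h1 : y ∈ Q j := by
        have h2 : ∏ j ∈ S, Q j ≤ Q j := Ideal.le_of_dvd
          (Finset.dvd_prod_of_mem Q (Finset.mem_filter.2 ⟨hj, h⟩))
        exact h2 hyJ
      exact h1
  obtain ⟨c, hc⟩ := expand (π := π) hr0 (x * y)
  have hcv : ∀ i < r, c i ∈ v.asIdeal := by
    intro i hi
    have h1 := average (π := π) hζ c hi
    rw [← hc] at h1
    have h2 : ko r π (algebraMap k A (r : k)) * (ko r π (c i) * ku r π ^ i) ∈ P.asIdeal := by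
      rw [← h1]
      exact sum_mem fun j hj => Ideal.mul_mem_left _ _ (hTz j hj)
    have h3 : ko r π (algebraMap k A (r : k)) ∉ P.asIdeal := by
      intro h
      apply P.isPrime.ne_top
      apply Ideal.eq_top_of_isUnit_mem _ h
      exact ((IsUnit.mk0 _ hrk).map (algebraMap k A)).map (ko r π)
    have h4 := (P.isPrime.mem_or_mem h2).resolve_left h3
    have h5 : ku r π ^ i ∉ P.asIdeal := fun h => hu (P.isPrime.mem_of_pow_mem i h)
    exact (hmem _).1 ((P.isPrime.mem_or_mem h4).resolve_right h5)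
  have hz : x * y ∈ P.asIdeal ^ 2 := by
    apply hle
    rw [hc]
    refine sum_mem fun i hi => Ideal.mul_mem_right _ _ ?_
    exact Ideal.mem_map_of_mem _ (hcv i (Finset.mem_range.1 hi))
  rw [← HeightOneSpectrum.intValuation_le_pow_iff_mem, map_mul, hx, hy1, mul_one] at hz
  rw [exp_le_exp] at hz
  norm_num at hz

/-- the evaluation at the ramified prime -/
noncomputable def phi (hr : 1 < r) (v : HeightOneSpectrum A) (hv : π ∈ v.asIdeal) :
    KR r π →+* A ⧸ v.asIdeal :=
  AdjoinRoot.lift (Ideal.Quotient.mk v.asIdeal) 0 (by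
    rw [eval₂_sub, eval₂_X_pow, eval₂_C, zero_pow (by omega), zero_sub, neg_eq_zero]
    exact Ideal.Quotient.eq_zero_iff_mem.2 hv)

theorem phi_ko (hr : 1 < r) (v : HeightOneSpectrum A) (hv : π ∈ v.asIdeal) (a : A) :
    phi hr v hv (ko r π a) = Ideal.Quotient.mk v.asIdeal a := AdjoinRoot.lift_of _

theorem phi_ku (hr : 1 < r) (v : HeightOneSpectrum A) (hv : π ∈ v.asIdeal) :
    phi hr v hv (ku r π) = 0 := AdjoinRoot.lift_root _

theorem ramd (hr : 1 < r) (hζ : IsPrimitiveRoot ζ r) [IsDedekindDomain (KR r π)]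
    (v : HeightOneSpectrum A) (hv : v.intValuation π = exp (-1 : ℤ)) :
    ∃ P : HeightOneSpectrum (KR r π), (∀ a : A, P.intValuation (ko r π a) = v.intValuation a ^ r) ∧
      P.intValuation (ku r π) = exp (-1 : ℤ) ∧
      P.asIdeal = P.asIdeal.comap (tw r π (algebraMap k A ζ) (zr hζ)) ∧
      ∀ z : KR r π, ∃ a : A, z - ko r π a ∈ P.asIdeal := by
  have hr0 : r ≠ 0 := by omega
  have hmem : π ∈ v.asIdeal := by
    rw [← HeightOneSpectrum.intValuation_lt_one_iff_mem, hv, ← exp_zero, exp_lt_exp]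
    norm_num
  have hπ0 : π ≠ 0 := pi_ne ⟨v, hv⟩
  set φ := phi hr v hmem with hφ
  have hvp := v.isPrime
  have hdq : IsDomain (A ⧸ v.asIdeal) := Ideal.Quotient.isDomain v.asIdeal
  have hPp : (RingHom.ker φ).IsPrime := RingHom.ker_isPrime φ
  have hmemA : ∀ a : A, ko r π a ∈ RingHom.ker φ ↔ a ∈ v.asIdeal := by
    intro a
    rw [RingHom.mem_ker, phi_ko, Ideal.Quotient.eq_zero_iff_mem]
  have hPb : RingHom.ker φ ≠ ⊥ := by
    intro h
    have h1 : ko r π π ∈ RingHom.ker φ := (hmemA π).2 hmem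
    rw [h] at h1
    exact hπ0 (ko_inj (π := π) hr0 ((Ideal.mem_bot.1 h1).trans (map_zero _).symm))
  let P : HeightOneSpectrum (KR r π) := ⟨RingHom.ker φ, hPp, hPb⟩
  have hPA : P.asIdeal = RingHom.ker φ := rfl
  have hlo : P.asIdeal.LiesOver v.asIdeal := ⟨by
    ext a
    exact (hmemA a).symm⟩
  have htf : Module.IsTorsionFree A (KR r π) := tf hr
  have huP : ku r π ∈ P.asIdeal := by
    rw [hPA, RingHom.mem_ker, phi_ku]
  have hu0 : ku r π ≠ 0 := by
    intro h
    have h1 := ku_pow (r := r) (π := π)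
    rw [h, zero_pow hr0] at h1
    exact hπ0 (ko_inj (π := π) hr0 (h1.symm.trans (map_zero _).symm))
  obtain ⟨m, hm⟩ := val_exp P hu0
  have hm1 : 1 ≤ m := by
    rw [← HeightOneSpectrum.intValuation_lt_one_iff_mem, hm, ← exp_zero, exp_lt_exp] at huP
    omega
  set e := v.asIdeal.ramificationIdx' P.asIdeal with he
  have hval : ∀ a : A, P.intValuation (ko r π a) = v.intValuation a ^ e := fun a =>
    (HeightOneSpectrum.intValuation_liesOver v P a).symm
  have hp : ∀ (x : ℤ) (t : ℕ), (exp x : ℤᵐ⁰) ^ t = exp (t * x) := by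
    intro x t
    rw [← exp_nsmul, nsmul_eq_mul]
  have h1 : e = r * m := by
    have h2 := hval π
    rw [← ku_pow, map_pow, hm, hv, hp, hp, exp_inj] at h2
    have h3 : (e : ℤ) = r * m := by linarith
    exact_mod_cast h3
  have hsup : P.asIdeal ≤ v.asIdeal.map (algebraMap A (KR r π)) ⊔ Ideal.span {ku r π} := by
    intro z hz
    obtain ⟨c, hc⟩ := expand (π := π) hr0 z
    obtain ⟨s, hs⟩ : ∃ s, r = s + 1 := ⟨r - 1, by omega⟩
    have h2 : z = (∑ i ∈ Finset.range s, ko r π (c (i + 1)) * ku r π ^ i) * ku r π +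
        ko r π (c 0) := by
      rw [hc]
      conv_lhs => rw [show Finset.range r = Finset.range (s + 1) by rw [← hs]]
      rw [Finset.sum_range_succ', Finset.sum_mul, pow_zero, mul_one]
      congr 1
      refine Finset.sum_congr rfl fun i _ => ?_
      rw [pow_succ]
      ring
    have h3 : c 0 ∈ v.asIdeal := by
      rw [← hmemA]
      have h4 : ko r π (c 0) = z - (∑ i ∈ Finset.range s, ko r π (c (i + 1)) * ku r π ^ i) * ku r π := by
        rw [h2]; ring
      rw [h4]
      exact sub_mem hz (Ideal.mul_mem_left _ _ huP)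
    rw [h2]
    refine add_mem (Ideal.mem_sup_right ?_) (Ideal.mem_sup_left ?_)
    · exact Ideal.mul_mem_left _ _ (Ideal.subset_span rfl)
    · exact Ideal.mem_map_of_mem _ h3
  have hm2 : m = 1 := by
    by_contra hne
    have hm3 : 2 ≤ m := by omega
    have h2 : P.asIdeal ≤ P.asIdeal ^ 2 := by
      refine hsup.trans (sup_le ?_ ?_)
      · have h3 : v.asIdeal.map (algebraMap A (KR r π)) ≤ P.asIdeal ^ e :=
          Ideal.le_pow_ramificationIdx'
        refine h3.trans (Ideal.pow_le_pow_right ?_)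
        rw [h1]
        nlinarith
      · rw [Ideal.span_singleton_le_iff_mem, ← HeightOneSpectrum.intValuation_le_pow_iff_mem, hm,
          exp_le_exp]
        push_cast
        omega
    obtain ⟨x, hx⟩ := P.intValuation_exists_uniformizer
    have hxP : x ∈ P.asIdeal := by
      rw [← HeightOneSpectrum.intValuation_lt_one_iff_mem, hx, ← exp_zero, exp_lt_exp]
      norm_num
    have h3 := h2 hxP
    rw [← HeightOneSpectrum.intValuation_le_pow_iff_mem, hx, exp_le_exp] at h3
    norm_num at h3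
  have he' : e = r := by rw [h1, hm2, mul_one]
  refine ⟨P, ?_, ?_, ?_, ?_⟩
  · intro a
    rw [hval, he']
  · rw [hm, hm2]
    rfl
  · have h2 : φ.comp (tw r π (algebraMap k A ζ) (zr hζ)) = φ := by
      apply kr_ext
      · intro a
        rw [RingHom.comp_apply, tw_ko]
      · rw [RingHom.comp_apply, tw_ku, map_mul, phi_ku, mul_zero]
    rw [hPA]
    ext z
    rw [Ideal.mem_comap, RingHom.mem_ker, RingHom.mem_ker]
    have h3 := congrArg (fun f : KR r π →+* A ⧸ v.asIdeal => f z) h2
    simp only [RingHom.comp_apply] at h3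
    rw [h3]
  · intro z
    obtain ⟨a, ha⟩ := Ideal.Quotient.mk_surjective (φ z)
    refine ⟨a, ?_⟩
    rw [hPA, RingHom.mem_ker, map_sub, phi_ko, ha, sub_self]

end ram

end Pool.Agent.Y494.FT
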